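import Mathlib

/-!
# MP_66a881_co : Day's sets are `B_h` sets over `ℤ` of size three

We prove Day's conjecture: for every `h ≥ 1` and every `n > 2 h a₃` the set `{a₁, h, a₃}` in `Z_n`
has three elements and is a `B_h` set over `ℤ`, where `(a₁, a₃) = (2, h² + h + 4)` for `h` odd and
`(a₁, a₃) = (1, h² + h + 1)` for `h` even.  In particular `g_±(3,h) ≤ 2h³ + 2h² + 8h + 1`.
-/

namespace Pool.Agent.Results.MP_66a881_co.DaySets

open Finset

/-- `A ⊆ Z_n` is a `B_h` set over `ℤ`: the map `λ ↦ ∑_{a ∈ A} λ_a a` is injective on the integer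
vectors indexed by `A` with `∑_{a ∈ A} |λ_a| = h` (coefficient vectors are given as functions on
`Z_n`, of which only the values on `A` matter). -/
def IsBhSet (n h : ℕ) (A : Finset (ZMod n)) : Prop :=
  ∀ l l' : ZMod n → ℤ, ∑ a ∈ A, |l a| = (h : ℤ) → ∑ a ∈ A, |l' a| = (h : ℤ) →
    ∑ a ∈ A, (l a : ZMod n) * a = ∑ a ∈ A, (l' a : ZMod n) * a → ∀ a ∈ A, l a = l' a

/-- `σ_±(Z_n,h)`: the largest size of a `B_h` set over `ℤ` in `Z_n` (and `0` if there is none). -/
noncomputable def sigma (n h : ℕ) : ℕ :=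
  sSup {m : ℕ | ∃ A : Finset (ZMod n), A.card = m ∧ IsBhSet n h A}

/-- `g_±(m,h)`: the least positive `g` such that `σ_±(Z_n,h) ≥ m` for every `n ≥ g`. -/
noncomputable def gpm (m h : ℕ) : ℕ :=
  sInf {g : ℕ | 0 < g ∧ ∀ n : ℕ, g ≤ n → m ≤ sigma n h}

/-- Day's `a₁`. -/
def a1 (h : ℕ) : ℕ := if Odd h then 2 else 1

/-- Day's `a₃`. -/
def a3 (h : ℕ) : ℕ := if Odd h then h ^ 2 + h + 4 else h ^ 2 + h + 1

/-- Day's set `{a₁, h, a₃}` in `Z_n`. -/
def daySet (n h : ℕ) : Finset (ZMod n) := {(a1 h : ZMod n), (h : ZMod n), (a3 h : ZMod n)}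

theorem abs_lemma_even (h x y z : ℤ) (hh : 1 ≤ h) (he : Even h)
    (h0 : x + h * y + (h ^ 2 + h + 1) * z = 0) (hs : |x| + |y| + |z| ≤ 2 * h)
    (hp : Even (x + y + z)) : x = 0 ∧ y = 0 ∧ z = 0 := by
  obtain ⟨j, hj⟩ : ∃ j, j = -(y + (h + 1) * z) := ⟨_, rfl⟩
  have hx : x = h * j - z := by rw [hj]; linear_combination h0
  have hy : y = -j - (h + 1) * z := by rw [hj]; ring
  subst hx hy
  -- reduce to z = 0, 1, -1
  have hz1 : |z| < 2 := by
    by_contra hcon
    push Not at hcon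
    rcases le_total 0 z with hz | hz
    · rw [abs_of_nonneg hz] at hcon hs
      rcases le_or_gt 0 j with h1 | h1
      · have := neg_abs_le (-j - (h + 1) * z)
        have h2 := abs_nonneg (h * j - z)
        nlinarith
      · have h3 := neg_abs_le (h * j - z)
        rcases le_or_gt j (-2) with h4 | h4
        · have := abs_nonneg (-j - (h + 1) * z)
          nlinarith
        · have h5 : j = -1 := by omega
          subst h5
          have := neg_abs_le (-(-1) - (h + 1) * z)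
          nlinarith
    · rw [abs_of_nonpos hz] at hcon hs
      rcases le_or_gt j 0 with h1 | h1
      · have := le_abs_self (-j - (h + 1) * z)
        have h2 := abs_nonneg (h * j - z)
        nlinarith
      · have h3 := le_abs_self (h * j - z)
        rcases le_or_gt 2 j with h4 | h4
        · have := abs_nonneg (-j - (h + 1) * z)
          nlinarith
        · have h5 : j = 1 := by omega
          subst h5
          have := le_abs_self (-1 - (h + 1) * z)
          nlinarith
  have hz2 : z = 0 ∨ z = 1 ∨ z = -1 := by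
    rw [abs_lt] at hz1
    omega
  obtain ⟨k, hk⟩ := he
  rcases hz2 with rfl | rfl | rfl
  · -- z = 0
    have hj1 : |j| < 2 := by
      by_contra hcon
      push Not at hcon
      simp only [mul_zero, sub_zero, abs_neg, abs_zero, add_zero, abs_mul,
        abs_of_nonneg (by omega : (0:ℤ) ≤ h)] at hs
      nlinarith
    have hj2 : j = 0 ∨ j = 1 ∨ j = -1 := by
      rw [abs_lt] at hj1
      omega
    obtain ⟨q, hq⟩ := hp
    rcases hj2 with rfl | rfl | rfl
    · simp
    · exfalso; ring_nf at hq; omega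
    · exfalso; ring_nf at hq; omega
  · exfalso
    obtain ⟨q, hq⟩ := hp
    have h6 := neg_abs_le (-j - (h + 1) * 1)
    have h7 := le_abs_self (-j - (h + 1) * 1)
    have h8 := neg_abs_le (h * j - 1)
    have h9 := le_abs_self (h * j - 1)
    rw [abs_one] at hs
    rcases lt_trichotomy j 0 with h1 | h1 | h1
    · nlinarith
    · subst h1; ring_nf at hq; omega
    · nlinarith
  · exfalso
    obtain ⟨q, hq⟩ := hp
    have h6 := neg_abs_le (-j - (h + 1) * (-1))
    have h7 := le_abs_self (-j - (h + 1) * (-1))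
    have h8 := neg_abs_le (h * j - (-1))
    have h9 := le_abs_self (h * j - (-1))
    rw [abs_neg, abs_one] at hs
    rcases lt_trichotomy j 0 with h1 | h1 | h1
    · nlinarith
    · subst h1; ring_nf at hq; omega
    · nlinarith

theorem abs_lemma_odd (h x y z : ℤ) (hh : 1 ≤ h) (ho : Odd h)
    (h0 : 2 * x + h * y + (h ^ 2 + h + 4) * z = 0) (hs : |x| + |y| + |z| ≤ 2 * h)
    (hp : Even (x + y + z)) : x = 0 ∧ y = 0 ∧ z = 0 := by
  obtain ⟨k, hk⟩ := ho
  have h2 : Even (y + (h + 1) * z) := by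
    have h3 : Even (h * (y + (h + 1) * z)) :=
      ⟨-(x + 2 * z), by linear_combination h0⟩
    rcases Int.even_mul.1 h3 with h4 | h4
    · exfalso
      obtain ⟨r, hr⟩ := h4
      omega
    · exact h4
  obtain ⟨i, hi⟩ := h2
  obtain ⟨j, hj⟩ : ∃ j, j = -i := ⟨_, rfl⟩
  have hi' : i = -j := by rw [hj]; ring
  subst hi'
  have hy : y = -(2 * j) - (h + 1) * z := by linear_combination hi
  have hx : x = h * j - 2 * z := by
    subst hy
    have : 2 * x = 2 * (h * j - 2 * z) := by linear_combination h0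
    omega
  subst hx hy
  have hz1 : |z| < 2 := by
    by_contra hcon
    push Not at hcon
    rcases le_total 0 z with hz | hz
    · rw [abs_of_nonneg hz] at hcon hs
      rcases le_or_gt 0 j with h1 | h1
      · have := neg_abs_le (-(2 * j) - (h + 1) * z)
        have h2 := abs_nonneg (h * j - 2 * z)
        nlinarith
      · have h3 := neg_abs_le (h * j - 2 * z)
        rcases le_or_gt j (-2) with h4 | h4
        · have := abs_nonneg (-(2 * j) - (h + 1) * z)
          nlinarith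
        · have h5 : j = -1 := by omega
          subst h5
          have := neg_abs_le (-(2 * (-1)) - (h + 1) * z)
          nlinarith
    · rw [abs_of_nonpos hz] at hcon hs
      rcases le_or_gt j 0 with h1 | h1
      · have := le_abs_self (-(2 * j) - (h + 1) * z)
        have h2 := abs_nonneg (h * j - 2 * z)
        nlinarith
      · have h3 := le_abs_self (h * j - 2 * z)
        rcases le_or_gt 2 j with h4 | h4
        · have := abs_nonneg (-(2 * j) - (h + 1) * z)
          nlinarith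
        · have h5 : j = 1 := by omega
          subst h5
          have := le_abs_self (-(2 * 1) - (h + 1) * z)
          nlinarith
  have hz2 : z = 0 ∨ z = 1 ∨ z = -1 := by
    rw [abs_lt] at hz1
    omega
  -- parity : j ≡ z mod 2
  have hpar : Even (j + z) := by
    obtain ⟨q, hq⟩ := hp
    refine ⟨k * j - k * z - z - q, ?_⟩
    subst hk
    linear_combination -hq
  obtain ⟨r, hr⟩ := hpar
  rcases hz2 with rfl | rfl | rfl
  · have hj1 : |j| < 2 := by
      by_contra hcon
      push Not at hcon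
      simp only [mul_zero, sub_zero, abs_neg, abs_zero, add_zero, abs_mul,
        abs_of_nonneg (by omega : (0:ℤ) ≤ h)] at hs
      rw [show |(2:ℤ)| = 2 from rfl] at hs
      nlinarith
    have hj2 : j = 0 := by
      rw [abs_lt] at hj1
      omega
    subst hj2
    simp
  · exfalso
    have h6 := neg_abs_le (-(2 * j) - (h + 1) * 1)
    have h7 := le_abs_self (-(2 * j) - (h + 1) * 1)
    have h8 := neg_abs_le (h * j - 2 * 1)
    have h9 := le_abs_self (h * j - 2 * 1)
    rw [abs_one] at hs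
    rcases lt_trichotomy j 0 with h1 | h1 | h1
    · nlinarith
    · omega
    · nlinarith
  · exfalso
    have h6 := neg_abs_le (-(2 * j) - (h + 1) * (-1))
    have h7 := le_abs_self (-(2 * j) - (h + 1) * (-1))
    have h8 := neg_abs_le (h * j - 2 * (-1))
    have h9 := le_abs_self (h * j - 2 * (-1))
    rw [abs_neg, abs_one] at hs
    rcases lt_trichotomy j 0 with h1 | h1 | h1
    · nlinarith
    · omega
    · nlinarith

theorem a1_pos (h : ℕ) : 1 ≤ a1 h := by
  unfold a1; split_ifs <;> omega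

theorem a1_ne (h : ℕ) (_hh : 1 ≤ h) : a1 h ≠ h := by
  unfold a1
  split_ifs with ho
  · rintro rfl
    exact absurd ho (by decide)
  · rintro rfl
    exact ho (by decide)

theorem a1_lt_a3 (h : ℕ) (hh : 1 ≤ h) : a1 h < a3 h := by
  unfold a1 a3
  split_ifs <;> nlinarith

theorem h_lt_a3 (h : ℕ) : h < a3 h := by
  unfold a3
  split_ifs <;> nlinarith

/-- If `0 < a < b < n` in `ℕ` then `a ≠ b` in `Z_n`. -/
theorem cast_ne {n a b : ℕ} (hab : a ≠ b) (ha : a < n) (hb : b < n) :
    (a : ZMod n) ≠ (b : ZMod n) := by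
  intro h
  rw [ZMod.natCast_eq_natCast_iff', Nat.mod_eq_of_lt ha, Nat.mod_eq_of_lt hb] at h
  exact hab h

theorem abs_parity (a b : ℤ) : Even (|a| + |b| + (a - b)) := by
  rcases abs_choice a with h1 | h1 <;> rcases abs_choice b with h2 | h2 <;> rw [h1, h2]
  · exact ⟨a, by ring⟩
  · exact ⟨a - b, by ring⟩
  · exact ⟨0, by ring⟩
  · exact ⟨-b, by ring⟩

/-- The integral statement for Day's sets. -/
theorem int_core (h : ℕ) (hh : 1 ≤ h) (x y z : ℤ)
    (h0 : (a1 h : ℤ) * x + h * y + (a3 h : ℤ) * z = 0)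
    (hs : |x| + |y| + |z| ≤ 2 * h) (hp : Even (x + y + z)) : x = 0 ∧ y = 0 ∧ z = 0 := by
  have hh' : (1 : ℤ) ≤ h := by exact_mod_cast hh
  unfold a1 a3 at h0
  split_ifs at h0 with ho
  · refine abs_lemma_odd h x y z hh' ?_ ?_ hs hp
    · obtain ⟨k, hk⟩ := ho
      exact ⟨k, by rw [hk]; push_cast; ring⟩
    · push_cast at h0
      exact h0
  · refine abs_lemma_even h x y z hh' ?_ ?_ hs hp
    · obtain ⟨k, hk⟩ := (Nat.not_odd_iff_even.1 ho)
      exact ⟨k, by rw [hk]; push_cast; ring⟩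
    · push_cast at h0
      linarith

theorem day_core (n h : ℕ) (hh : 1 ≤ h) (hn : 2 * h * a3 h < n) (x y z x' y' z' : ℤ)
    (h1 : |x| + |y| + |z| = h) (h2 : |x'| + |y'| + |z'| = h)
    (h3 : (x : ZMod n) * (a1 h : ZMod n) + (y : ZMod n) * (h : ZMod n)
        + (z : ZMod n) * (a3 h : ZMod n)
      = (x' : ZMod n) * (a1 h : ZMod n) + (y' : ZMod n) * (h : ZMod n)
        + (z' : ZMod n) * (a3 h : ZMod n)) : x = x' ∧ y = y' ∧ z = z' := by
  have h4 : (((a1 h : ℤ) * (x - x') + h * (y - y') + (a3 h : ℤ) * (z - z') : ℤ) : ZMod n) = 0 := by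
    push_cast
    linear_combination h3
  rw [ZMod.intCast_zmod_eq_zero_iff_dvd] at h4
  have hb : |(a1 h : ℤ) * (x - x') + h * (y - y') + (a3 h : ℤ) * (z - z')| < n := by
    have e1 : |(a1 h : ℤ) * (x - x') + h * (y - y') + (a3 h : ℤ) * (z - z')|
        ≤ (a3 h : ℤ) * (|x - x'| + |y - y'| + |z - z'|) := by
      have k1 : ((a1 h : ℕ) : ℤ) ≤ a3 h := by exact_mod_cast (a1_lt_a3 h hh).le
      have k2 : (h : ℤ) ≤ a3 h := by exact_mod_cast (h_lt_a3 h).le
      have k3 : (0 : ℤ) ≤ a1 h := by positivity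
      have k4 : (0 : ℤ) ≤ h := by positivity
      have k5 : (0 : ℤ) ≤ a3 h := by positivity
      calc |(a1 h : ℤ) * (x - x') + h * (y - y') + (a3 h : ℤ) * (z - z')|
          ≤ |(a1 h : ℤ) * (x - x')| + |(h : ℤ) * (y - y')| + |(a3 h : ℤ) * (z - z')| := by
            refine (abs_add_le _ _).trans ?_
            gcongr
            exact abs_add_le _ _
        _ = (a1 h : ℤ) * |x - x'| + (h : ℤ) * |y - y'| + (a3 h : ℤ) * |z - z'| := by
            rw [abs_mul, abs_mul, abs_mul, abs_of_nonneg k3, abs_of_nonneg k4, abs_of_nonneg k5]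
        _ ≤ (a3 h : ℤ) * |x - x'| + (a3 h : ℤ) * |y - y'| + (a3 h : ℤ) * |z - z'| := by
            gcongr
        _ = _ := by ring
    have e2 : |x - x'| + |y - y'| + |z - z'| ≤ 2 * h := by
      have q1 := abs_sub x x'
      have q2 := abs_sub y y'
      have q3 := abs_sub z z'
      linarith
    have k5 : (0 : ℤ) ≤ a3 h := by positivity
    have e3 : (2 : ℤ) * h * a3 h < n := by exact_mod_cast hn
    calc _ ≤ (a3 h : ℤ) * (|x - x'| + |y - y'| + |z - z'|) := e1
      _ ≤ (a3 h : ℤ) * (2 * h) := by gcongr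
      _ = 2 * h * a3 h := by ring
      _ < n := e3
  have h5 := Int.eq_zero_of_abs_lt_dvd h4 hb
  have h6 : |x - x'| + |y - y'| + |z - z'| ≤ 2 * (h : ℤ) := by
    have q1 := abs_sub x x'
    have q2 := abs_sub y y'
    have q3 := abs_sub z z'
    linarith
  have h7 : Even ((x - x') + (y - y') + (z - z')) := by
    obtain ⟨r1, hr1⟩ := abs_parity x x'
    obtain ⟨r2, hr2⟩ := abs_parity y y'
    obtain ⟨r3, hr3⟩ := abs_parity z z'
    exact ⟨r1 + r2 + r3 - h, by linarith⟩
  obtain ⟨u, v, w⟩ := int_core h hh _ _ _ h5 h6 h7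
  exact ⟨by linarith, by linarith, by linarith⟩

theorem day_distinct (n h : ℕ) (hh : 1 ≤ h) (hn : 2 * h * a3 h < n) :
    (a1 h : ZMod n) ≠ (h : ZMod n) ∧ (a1 h : ZMod n) ≠ (a3 h : ZMod n) ∧
      (h : ZMod n) ≠ (a3 h : ZMod n) := by
  have k1 := a1_lt_a3 h hh
  have k2 := h_lt_a3 h
  have k3 : a3 h < n := by nlinarith
  exact ⟨cast_ne (a1_ne h hh) (by omega) (by omega), cast_ne (by omega) (by omega) k3,
    cast_ne (by omega) (by omega) k3⟩

theorem day_card (n h : ℕ) (hh : 1 ≤ h) (hn : 2 * h * a3 h < n) : (daySet n h).card = 3 := by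
  obtain ⟨d1, d2, d3⟩ := day_distinct n h hh hn
  unfold daySet
  exact Finset.card_eq_three.2 ⟨_, _, _, d1, d2, d3, rfl⟩

theorem day_sum {n h : ℕ} (hh : 1 ≤ h) (hn : 2 * h * a3 h < n) {M : Type*} [AddCommMonoid M]
    (f : ZMod n → M) :
    ∑ a ∈ daySet n h, f a = f (a1 h) + (f (h : ZMod n) + f (a3 h)) := by
  obtain ⟨d1, d2, d3⟩ := day_distinct n h hh hn
  unfold daySet
  rw [Finset.sum_insert, Finset.sum_insert, Finset.sum_singleton]
  · simpa using d3
  · simp [d1, d2]

theorem day_isBh (n h : ℕ) (hh : 1 ≤ h) (hn : 2 * h * a3 h < n) :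
    IsBhSet n h (daySet n h) := by
  intro l l' h1 h2 h3
  rw [day_sum hh hn] at h1 h2 h3
  rw [day_sum hh hn] at h3
  obtain ⟨e1, e2, e3⟩ := day_core n h hh hn (l (a1 h)) (l (h : ZMod n)) (l (a3 h))
    (l' (a1 h)) (l' (h : ZMod n)) (l' (a3 h)) (by linarith) (by linarith)
    (by linear_combination h3)
  intro a ha
  unfold daySet at ha
  simp only [Finset.mem_insert, Finset.mem_singleton] at ha
  rcases ha with rfl | rfl | rfl
  · exact e1
  · exact e2
  · exact e3

theorem two_mul_a3_le (h : ℕ) : 2 * h * a3 h ≤ 2 * h ^ 3 + 2 * h ^ 2 + 8 * h := by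
  unfold a3
  split_ifs <;> nlinarith

theorem three_le_sigma (n h : ℕ) (hh : 1 ≤ h)
    (hn : 2 * h ^ 3 + 2 * h ^ 2 + 8 * h + 1 ≤ n) : 3 ≤ sigma n h := by
  have hn' : 2 * h * a3 h < n := lt_of_le_of_lt (two_mul_a3_le h) (by omega)
  have hpos : 0 < n := by omega
  haveI : NeZero n := ⟨by omega⟩
  unfold sigma
  refine le_csSup ⟨n, ?_⟩ ⟨daySet n h, day_card n h hh hn', day_isBh n h hh hn'⟩
  rintro m ⟨A, hA, -⟩
  rw [← hA]
  have := Finset.card_le_univ A
  rwa [ZMod.card] at this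

/-- **Main result** (MP_66a881_co, Q1, and Day's conjectured construction).
(1) For every `h ≥ 1` and every `n > 2 h a₃`, Day's set `{a₁, h, a₃} ⊆ Z_n` has three elements and
is a `B_h` set over `ℤ`.
(2) For every `h ≥ 1` and every `n ≥ 2h³ + 2h² + 8h + 1`, `σ_±(Z_n,h) ≥ 3`.
(3) For every `h ≥ 1`, `g_±(3,h) ≤ 2h³ + 2h² + 8h + 1`. -/
theorem result :
    (∀ h : ℕ, 1 ≤ h → ∀ n : ℕ, 2 * h * a3 h < n →
      (daySet n h).card = 3 ∧ IsBhSet n h (daySet n h)) ∧
    (∀ h : ℕ, 1 ≤ h → ∀ n : ℕ, 2 * h ^ 3 + 2 * h ^ 2 + 8 * h + 1 ≤ n → 3 ≤ sigma n h) ∧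
    (∀ h : ℕ, 1 ≤ h → gpm 3 h ≤ 2 * h ^ 3 + 2 * h ^ 2 + 8 * h + 1) := by
  refine ⟨fun h hh n hn => ⟨day_card n h hh hn, day_isBh n h hh hn⟩,
    fun h hh n hn => three_le_sigma n h hh hn, fun h hh => ?_⟩
  exact Nat.sInf_le ⟨by omega, fun n hn => three_le_sigma n h hh hn⟩

end Pool.Agent.Results.MP_66a881_co.DaySets
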